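import Pool.Agent.H64.SubA52

set_option autoImplicit false

namespace Pool.Agent.Results.MP_092669_al.Dense

open Pool.Agent.H64.SubA5Defs Filter Topology

/-- The iterated wreath product of `A₅` has a finitely generated dense subgroup of subexponential
growth. -/
theorem result : ∃ Γ : Subgroup (Equiv.Perm (List (Fin 5))), (∀ g ∈ Γ, LocA5 g) ∧ Γ.FG ∧
    DenseInW Γ ∧ ∀ S : Finset (Equiv.Perm (List (Fin 5))), Subgroup.closure (S : Set _) = Γ →
      Tendsto (fun r : ℕ => ((ball (S : Set (Equiv.Perm (List (Fin 5)))) r).ncard : ℝ) ^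
        (1 / r : ℝ)) atTop (𝓝 1) :=
  ⟨Pool.Agent.H64.SubA5.G, fun _ => Pool.Agent.H64.SubA5.locA5, Pool.Agent.H64.SubA5.G_fg,
    fun n g => Pool.Agent.H64.SubA5.dense_fun n g,
    fun S h => Pool.Agent.H64.SubA5.growth S fun _ hg => h ▸ Subgroup.subset_closure hg⟩

end Pool.Agent.Results.MP_092669_al.Dense
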